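import Pool.Agent.MTO.Stmts

/-! MTO, row WED: calculus of `wd`. -/

set_option autoImplicit false
set_option linter.unusedSectionVars false

namespace Pool.Agent.MTO.H74

open Matrix Pool.Agent.MTF

variable {d : Type} [Fintype d] [DecidableEq d]

theorem vmv (a b x : d → ℂ) : vecMulVec a b *ᵥ x = (b ⬝ᵥ x) • a := by
  ext i
  simp only [mulVec, dotProduct, vecMulVec_apply, Pi.smul_apply, smul_eq_mul, Finset.sum_mul]
  exact Finset.sum_congr rfl fun j _ => by ring

theorem mul_vmv (X : Matrix d d ℂ) (a b : d → ℂ) : X * vecMulVec a b = vecMulVec (X *ᵥ a) b := by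
  ext i j
  simp only [mul_apply, vecMulVec_apply, mulVec, dotProduct, Finset.sum_mul]
  exact Finset.sum_congr rfl fun k _ => by ring

theorem vmv_mul (X : Matrix d d ℂ) (a b : d → ℂ) : vecMulVec a b * X = vecMulVec a (Xᵀ *ᵥ b) := by
  ext i j
  simp only [mul_apply, vecMulVec_apply, mulVec, dotProduct, Finset.mul_sum, transpose_apply]
  exact Finset.sum_congr rfl fun k _ => by ring

theorem pair_symm {Ψ : Matrix d d ℂ} (h : Ψᵀ = Ψ) (x y : d → ℂ) :
    x ⬝ᵥ (Ψ *ᵥ y) = y ⬝ᵥ (Ψ *ᵥ x) := by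
  rw [dotProduct_mulVec, ← mulVec_transpose, h, dotProduct_comm]

theorem wd_mulVec {Ψ : Matrix d d ℂ} (h : Ψᵀ = Ψ) (a b x : d → ℂ) :
    wd Ψ a b *ᵥ x = (b ⬝ᵥ (Ψ *ᵥ x)) • a - (a ⬝ᵥ (Ψ *ᵥ x)) • b := by
  unfold wd
  rw [sub_mulVec, vmv, vmv, dotProduct_comm (Ψ *ᵥ b), dotProduct_comm (Ψ *ᵥ a), pair_symm h x b,
    pair_symm h x a]

theorem wed : WedStmt := by
  intro d _ _ Ψ hs
  refine ⟨wd_mulVec hs, ?_, ?_, ?_, ?_, ?_, ?_, ?_, pair_symm hs⟩
  · intro a b
    change (wd Ψ a b)ᵀ * Ψ + Ψ * wd Ψ a b = 0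
    unfold wd
    rw [transpose_sub, transpose_vecMulVec, transpose_vecMulVec, sub_mul, mul_sub, vmv_mul, vmv_mul,
      mul_vmv, mul_vmv, hs]
    abel
  · intro X hX a b
    have hX' : Xᵀ * Ψ + Ψ * X = 0 := hX
    have h1 : ∀ v : d → ℂ, Xᵀ *ᵥ (Ψ *ᵥ v) = -(Ψ *ᵥ (X *ᵥ v)) := by
      intro v
      rw [mulVec_mulVec, mulVec_mulVec, eq_neg_of_add_eq_zero_left hX', neg_mulVec]
    unfold wd
    rw [mul_sub, sub_mul, mul_vmv, mul_vmv, vmv_mul, vmv_mul, h1, h1]
    ext i j
    simp only [Matrix.sub_apply, Matrix.add_apply, vecMulVec_apply, Pi.neg_apply]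
    ring
  · intro hu X hX
    have hX' : Xᵀ * Ψ + Ψ * X = 0 := hX
    obtain ⟨S, hS⟩ : ∃ S, S = X * Ψ⁻¹ := ⟨_, rfl⟩
    have hSX : S * Ψ = X := by rw [hS, mul_assoc, nonsing_inv_mul Ψ hu, mul_one]
    have hSt : Sᵀ = -S := by
      have h1 : Ψ⁻¹ᵀ = Ψ⁻¹ := by rw [transpose_nonsing_inv, hs]
      have h2 : Xᵀ = -(Ψ * X * Ψ⁻¹) := by
        have h3 : Xᵀ * Ψ = -(Ψ * X) := eq_neg_of_add_eq_zero_left hX'
        calc Xᵀ = Xᵀ * Ψ * Ψ⁻¹ := by rw [mul_assoc, mul_nonsing_inv Ψ hu, mul_one]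
          _ = _ := by rw [h3, neg_mul]
      rw [hS, transpose_mul, h1, h2, mul_neg, ← mul_assoc, ← mul_assoc, nonsing_inv_mul Ψ hu,
        one_mul]
    have hsum : X = (1 / 2 : ℂ) • ∑ i, ∑ j, S i j • wd Ψ (Pi.single i 1) (Pi.single j 1) := by
      ext p q
      have e1 : ∀ i j, (wd Ψ (Pi.single i 1) (Pi.single j 1)) p q =
          (if p = i then 1 else 0) * Ψ j q - (if p = j then 1 else 0) * Ψ i q := by
        intro i j
        have e2 : ∀ i j, Ψ i j = Ψ j i := fun i j => congrFun (congrFun hs j) i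
        unfold wd
        rw [Matrix.sub_apply, vecMulVec_apply, vecMulVec_apply, mulVec_single_one, mulVec_single_one]
        simp only [Pi.single_apply, col_apply, e2 q]
      rw [Matrix.smul_apply, Matrix.sum_apply]
      simp only [Matrix.sum_apply, Matrix.smul_apply, e1, smul_eq_mul]
      have e3 : ∀ i j, S i j * ((if p = i then 1 else 0) * Ψ j q - (if p = j then 1 else 0) * Ψ i q)
          = (if p = i then S i j * Ψ j q else 0) - (if p = j then S i j * Ψ i q else 0) := by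
        intro i j
        split_ifs <;> ring
      simp only [e3, Finset.sum_sub_distrib]
      have e4 : ∑ i, ∑ j, (if p = i then S i j * Ψ j q else 0) = X p q := by
        rw [Finset.sum_comm]
        simp only [Finset.sum_ite_eq, Finset.mem_univ, if_true]
        rw [← hSX, mul_apply]
      have e5 : ∑ i, ∑ j, (if p = j then S i j * Ψ i q else 0) = -X p q := by
        simp only [Finset.sum_ite_eq, Finset.mem_univ, if_true]
        rw [← hSX, mul_apply, ← Finset.sum_neg_distrib]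
        refine Finset.sum_congr rfl fun i _ => ?_
        have e6 : S i p = -S p i := congrFun (congrFun hSt p) i
        rw [e6, neg_mul]
      rw [e4, e5]
      ring
    rw [hsum]
    refine Submodule.smul_mem _ _ (Submodule.sum_mem _ fun i _ => Submodule.sum_mem _ fun j _ =>
      Submodule.smul_mem _ _ (Submodule.subset_span ⟨_, _, rfl⟩))
  · intro a b
    unfold wd
    abel
  · intro a a' b
    unfold wd
    ext i j
    simp only [Matrix.sub_apply, Matrix.add_apply, vecMulVec_apply, Pi.add_apply, mulVec_add]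
    ring
  · intro t a b
    unfold wd
    ext i j
    simp only [Matrix.sub_apply, Matrix.smul_apply, vecMulVec_apply, Pi.smul_apply, mulVec_smul, smul_eq_mul]
    ring
  · intro hr a b
    have h1 : ∀ v : d → ℂ, star (Ψ *ᵥ v) = Ψ *ᵥ star v := by
      intro v
      ext i
      simp only [mulVec, dotProduct, Pi.star_apply, star_sum, star_mul', hr]
    ext i j
    unfold wd
    simp only [map_apply, Matrix.sub_apply, vecMulVec_apply, ← h1, Pi.star_apply, star_sub, star_mul']

end Pool.Agent.MTO.H74
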