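import Pool.Agent.Helper74_MTO.Few2
import Pool.Agent.Helper88_MTN.All
import Pool.Agent.Helper25_MTO.MAE
import Pool.Agent.Helper90_MTO.CDE
import Pool.Agent.Helper75_MTO.Cre
import Pool.Agent.Helper27_MTO.EXT
import Pool.Agent.Helper81_MTO.HLE
import Pool.Agent.Helper67_MTO.IRE
import Pool.Agent.Helper75_MTO.Lae
import Pool.Agent.Helper83_MTO.NUE
import Pool.Agent.Helper46_MTO.SNE
import Pool.Agent.Helper74_MTO.WED
import Pool.Agent.Helper52_MTO.NLE
import Pool.Agent.Helper85_MTO.SPE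
import Pool.Agent.Helper13_MTO.LVE

/-! MTO: assembly (few constants, both parities). -/

set_option autoImplicit false

namespace Pool.Agent.MTO.H74

open Pool.Agent.MTN Pool.Agent.MTN.H88 Pool.Agent.HIK

universe u v

theorem nmpA : MTN.H74.NmpStmt := MTN.H74.nmp nmzA

theorem codA : MTN.H74.CodPStmt :=
  MTN.H74.cod (MTF.H20.cor' MTF.H74.trd) (MTN.H74.perP MT100D.H97.bas MT100D.H97.moa nmpA)
    MTF.H32.nip

theorem fewOA : MTN.H74.FewStmt.{u, v} :=
  MTN.H74.few nmzA H49.pth pidA MTN.H88.smlA dzcA boxA MTN.H88.finA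

theorem speA : SpeStmt := H85.spe wed H83.nue

theorem cdeA : CdeStmt := H90.cde H75.cre (H27.ext wed) (H67.ire wed) speA (H75.lae wed H52.nle)

theorem maeA : MaeStmt.{u} := H25.mae codA cdeA H81.hle H81.gso (H46.sne wed) H13.lve

theorem fewEA : FewEStmt.{u, v} := H20.fne maeA H49.pth pidA MTN.H88.smlA dzcA boxA MTN.H88.finA

theorem fewAllA : FewAllStmt.{u, v} := few2 fewOA fewEA

end Pool.Agent.MTO.H74
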