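import Pool.Agent.Helper20_MTO.FNE

/-! Few constants, final form: both parities of the weight in one theorem. -/

set_option autoImplicit false

namespace Pool.Agent.MTO.H74

open Matrix Polynomial NumberField Pool.Agent.MT100 Pool.Agent.MT100G Pool.Agent.MT100A
  Pool.Agent.MT100D Pool.Agent.Helper78_MT Pool.Agent.Helper46_MT Pool.Agent.MTF Pool.Agent.MTL
  Pool.Agent.MTN Pool.Agent.MTN.H53 Pool.Agent.HIK Pool.Agent.MT100GO

universe u v

/-- The Zariski closure of the set `M` contains all the isometries of the form `E`; if `E` is symmetric,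
all those of determinant one. -/
def IsoDense {d : Type} [Fintype d] [DecidableEq d] (M : Set (Matrix d d ℂ)) (E : Matrix d d ℚ) :
    Prop :=
  ∀ g : Matrix d d ℂ, gᵀ * E.map (algebraMap ℚ ℂ) * g = E.map (algebraMap ℚ ℂ) →
    (Eᵀ = E → g.det = 1) → g ∈ zclosure ℂ ℂ M

/-- The `K`-points of the identity component of the group of the similitudes of the nondegenerate form
`E`: if `E` is alternating all the similitudes; if `E` is symmetric all the similitudes if the dimension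
`r` is odd, and those with determinant `c ^ (r / 2)`, `c` the multiplier, if `r` is even. -/
def simC {d : Type} [Fintype d] [DecidableEq d] (E : Matrix d d ℚ) (K : Type*) [Field K]
    [CharZero K] : Set (Matrix d d K) :=
  {M | IsUnit M.det ∧ ∃ c : K, Mᵀ * E.map (algebraMap ℚ K) * M = c • E.map (algebraMap ℚ K) ∧
    (Eᵀ = E → Even (Fintype.card d) → M.det = c ^ (Fintype.card d / 2))}

/-- the numerical condition: `c` is the number of constants, `r` the rank -/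
def Small {d : Type} [Fintype d] (w : ℕ) (lev : d → ℕ) (c r : ℕ) : Prop :=
  ∃ κ : ℕ, (Odd w ∧ (∀ p, Fintype.card {a // lev a = p} ≤ κ) ∧ c + 1 + κ < r) ∨
    (Even w ∧ (∀ p, Fintype.card {a // lev a = p ∨ lev a + p = w} ≤ κ) ∧ 5 ≤ r ∧ 2 * c + κ < r)

section conv

variable {d : Type} [Fintype d] [DecidableEq d]

theorem simC_even {E : Matrix d d ℚ} (h : Eᵀ = E) (K : Type*) [Field K] [CharZero K] :
    simC E K = simO E K := by
  ext M
  unfold simC simO
  simp only [Set.mem_ofPred_eq, h, forall_const]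

theorem simC_odd {E : Matrix d d ℚ} (h : Eᵀ ≠ E) (K : Type*) [Field K] [CharZero K] :
    simC E K = similitudes E K := by
  ext M
  unfold simC similitudes
  simp only [Set.mem_ofPred_eq, h, false_imp_iff, and_true]

theorem iso_even {M : Set (Matrix d d ℂ)} {E : Matrix d d ℚ} (h : Eᵀ = E) (hM : IsoDense M E) :
    SoDense M E := fun g hg hd => hM g hg fun _ => hd

theorem iso_odd {M : Set (Matrix d d ℂ)} {E : Matrix d d ℚ} (h : Eᵀ ≠ E) (hM : IsoDense M E) :
    SpDense M E := fun g hg => hM g hg fun h' => absurd h' h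

theorem ne_of_odd {w : ℕ} (hw : Odd w) {E : Matrix d d ℚ} {V : ℕ → Submodule ℂ (d → ℂ)}
    (hV : PolHodge w E V) (hd : 0 < Fintype.card d) : Eᵀ ≠ E := by
  intro h
  have h1 : Eᵀ = -E := by rw [hV.symm, hw.neg_one_pow, neg_smul, one_smul]
  have h2 : E = -E := h.symm.trans h1
  have h3 : E = 0 := by
    ext i j
    have h5 : E i j = -E i j := congrFun (congrFun h2 i) j
    rw [Matrix.zero_apply]
    linarith
  have h4 := hV.nondeg
  rw [h3] at h4
  have : Nonempty d := Fintype.card_pos_iff.1 hd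
  simp [det_zero] at h4

end conv

/-- FEW, the final theorem: both parities -/
def FewAllStmt : Prop :=
  ∀ (d : Type) [Fintype d] [DecidableEq d] (F : Family d) (w : ℕ) (lev : d → ℕ)
    (P : Matrix d d ℂ) (m : ℕ) (c : Fin m → ℂ) (s : ℂ), IsUnit P.det → s ≠ 0 →
    (∀ i j, IsAlgebraic (IntermediateField.adjoin ℚ (Set.range c)) (s * P i j)) →
    Small w lev (m + (if F.N = 0 then 0 else 1)) (Fintype.card d) →
    (∀ e A : ℕ, ∃ R0 : ℝ, ∀ x ∈ Pool.Agent.MTN.Pts e A, R0 ≤ ‖x‖ →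
      ∀ (E : Matrix d d ℚ) (V : ℕ → Submodule ℂ (d → ℂ)),
      FibreC F lev P w x E V → IsoDense (F.Mo P) E →
      (∀ (K : Type u) [Field K] [CharZero K], mtGroup w V K = simC E K) ∧
      ∀ (ℓ : ℕ) [Fact ℓ.Prime] (Γ : Type v) [Group Γ] (ρ : Γ →* GL d ℚ_[ℓ]), BigMonodromy E ρ →
        ∀ (K : Type u) [Field K] [CharZero K] [Algebra ℚ_[ℓ] K],
          monodromy ρ K = mtGroup w V K) ∧
    ∀ ρ : (ℓ : ℕ) → [Fact ℓ.Prime] → GT →* GL d ℚ_[ℓ],
      (∀ (ℓ : ℕ) [Fact ℓ.Prime], Continuous (ρ ℓ)) →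
      ∀ (k : Type) [Field k] [NumberField k] (σ : k →+* ℂ),
      ∃ (T : Set (𝓞 k)) (N : ℕ → ℕ), DZ k T ∧ ∀ (ℓ : ℕ) [Fact ℓ.Prime] (a : 𝓞 k),
        a ∉ T → (N ℓ : ℝ) ≤ house (a : k) →
        ∀ (E : Matrix d d ℚ) (V : ℕ → Submodule ℂ (d → ℂ)),
        FibreC F lev P w (σ a) E V → IsoDense (F.Mo P) E → BigMonodromy E (ρ ℓ) →
        ∀ (ψ : k →+* QB) (ρa : HIK.Stab (ψ a) →* GL d ℚ_[ℓ]), SpecializesAt (ρ ℓ) (ψ a) ρa →
        ∀ (K : Type u) [Field K] [CharZero K] [Algebra ℚ_[ℓ] K],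
          monodromy ρa K = mtGroup w V K

theorem few2 (hO : MTN.H74.FewStmt.{u, v}) (hE : FewEStmt.{u, v}) : FewAllStmt.{u, v} := by
  intro d _ _ F w lev P m c s hP hs hc hsm
  obtain ⟨κ, ⟨hw, hκ, hlt⟩ | ⟨hw, hκ, h5, hlt⟩⟩ := hsm
  · obtain ⟨h1, h2⟩ := hO d F w lev P m κ c s hw hP hs hc hκ hlt
    have hpos : 0 < Fintype.card d := by omega
    refine ⟨fun e A => ?_, fun ρ hρ k _ _ σ => ?_⟩
    · obtain ⟨R0, hR0⟩ := h1 e A
      refine ⟨R0, fun x hx hxR E V hV hD => ?_⟩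
      have hne := ne_of_odd hw hV.1 hpos
      obtain ⟨h3, h4⟩ := hR0 x hx hxR E V hV (iso_odd hne hD)
      exact ⟨fun K _ _ => (h3 K).trans (simC_odd hne K).symm, h4⟩
    · obtain ⟨T, N, hT, h3⟩ := h2 ρ hρ k σ
      refine ⟨T, N, hT, ?_⟩
      intro ℓ _ a ha hN E V hV hD hρE ψ ρa hsp K _ _ _
      exact h3 ℓ a ha hN E V hV (iso_odd (ne_of_odd hw hV.1 hpos) hD) hρE ψ ρa hsp K
  · have hκ' : ∀ p ≤ w, Fintype.card {a // lev a = p ∨ lev a = w - p} ≤ κ := by
      intro p hp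
      refine le_trans (le_of_eq ?_) (hκ p)
      refine Fintype.card_congr (Equiv.subtypeEquivRight fun a => ?_)
      omega
    obtain ⟨h1, h2⟩ := hE d F w lev P m κ c s hw hP hs hc hκ' h5 hlt
    refine ⟨fun e A => ?_, fun ρ hρ k _ _ σ => ?_⟩
    · obtain ⟨R0, hR0⟩ := h1 e A
      refine ⟨R0, fun x hx hxR E V hV hD => ?_⟩
      have hsy := H20.symE hw hV.1
      obtain ⟨h3, h4⟩ := hR0 x hx hxR E V hV (iso_even hsy hD)
      exact ⟨fun K _ _ => (h3 K).trans (simC_even hsy K).symm, h4⟩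
    · obtain ⟨T, N, hT, h3⟩ := h2 ρ hρ k σ
      refine ⟨T, N, hT, ?_⟩
      intro ℓ _ a ha hN E V hV hD hρE ψ ρa hsp K _ _ _
      exact h3 ℓ a ha hN E V hV (iso_even (H20.symE hw hV.1) hD) hρE ψ ρa hsp K

end Pool.Agent.MTO.H74
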